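import Pool.Agent.V11294.Lu.Fin

/-!
# MP_551acd_nt: Lucas sequences at index `(p-1)/4` with `b` odd
-/

set_option autoImplicit false

open Pool.Agent.V11294.Lu

namespace Pool.Agent.Results.MP_551acd_nt.LucasQuarter

/-- Lucas sequences `U_n = U_n(b, -1)`, `V_n = V_n(b, -1)` (`LU`, `LV`) at the index `(p - 1) / 4`, modulo `p`,
for odd `b`, in terms of `p = c ^ 2 + d ^ 2 = x ^ 2 + (b ^ 2 + 4) y ^ 2`. -/
theorem result (p : ℕ) [Fact p.Prime] (hp4 : p % 4 = 1) (b : ℤ) (hb : b % 2 = 1)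
    (c d x y : ℤ) (h1 : (p : ℤ) = c ^ 2 + d ^ 2)
    (h2 : (p : ℤ) = x ^ 2 + (b ^ 2 + 4) * y ^ 2) (_hne : (p : ℤ) ≠ b ^ 2 + 4) (hc : c % 4 = 1)
    (hd : OddPartOne d) (hx : OddPartOne x) (hy : OddPartOne y) :
    ((x % 2 = 1 ∧ y % 2 = 0) ∨ (x % 2 = 0 ∧ y % 2 = 1)) ∧
    (x % 4 = 2 → 4 ∣ d ∧
      (b % 8 = 1 ∨ b % 8 = 3 →
        (LU b ((p - 1) / 4) : ZMod p) = (-1) ^ (d / 4) * (2 * (y : ZMod p) / (x : ZMod p))) ∧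
      (b % 8 = 5 ∨ b % 8 = 7 →
        (LU b ((p - 1) / 4) : ZMod p) = -(-1) ^ (d / 4) * (2 * (y : ZMod p) / (x : ZMod p))) ∧
      (LV b ((p - 1) / 4) : ZMod p) = 0) ∧
    (y % 4 = 2 →
      (LU b ((p - 1) / 4) : ZMod p) = (2 * (d : ZMod p) * (y : ZMod p)) / ((c : ZMod p) * (x : ZMod p)) ∧
      (LV b ((p - 1) / 4) : ZMod p) = 0) ∧
    (4 ∣ y → 4 ∣ d ∧
      (LV b ((p - 1) / 4) : ZMod p) = 2 * (-1) ^ ((d + y) / 4) ∧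
      (LU b ((p - 1) / 4) : ZMod p) = 0) ∧
    (4 ∣ x →
      (b % 8 = 1 ∨ b % 8 = 3 →
        (LV b ((p - 1) / 4) : ZMod p) = -2 * (-1) ^ (x / 4) * ((d : ZMod p) / (c : ZMod p))) ∧
      (b % 8 = 5 ∨ b % 8 = 7 →
        (LV b ((p - 1) / 4) : ZMod p) = 2 * (-1) ^ (x / 4) * ((d : ZMod p) / (c : ZMod p))) ∧
      (LU b ((p - 1) / 4) : ZMod p) = 0) := by
  have hDo : (b ^ 2 + 4) % 2 = 1 := by
    obtain ⟨k, hk⟩ : ∃ k, b = 2 * k + 1 := ⟨b / 2, by omega⟩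
    have : b ^ 2 + 4 = 2 * (2 * k ^ 2 + 2 * k + 2) + 1 := by rw [hk]; ring
    omega
  have hpar := par h2 (by omega) hDo
  have hp1 : (p - 1) / 4 = p / 4 := by omega
  have hm1 : (-1 : ZMod p) ≠ 0 := neg_ne_zero.2 one_ne_zero
  obtain ⟨ρ, hρ⟩ : ∃ ρ, ρ = b / 4 := ⟨_, rfl⟩
  rw [hp1]
  -- the sign
  have s1 : b % 8 = 1 ∨ b % 8 = 3 → ((-1 : ZMod p)) ^ ρ = 1 := fun h =>
    Even.neg_one_zpow (by rw [Int.even_iff]; omega)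
  have s2 : b % 8 = 5 ∨ b % 8 = 7 → ((-1 : ZMod p)) ^ ρ = -1 := fun h =>
    Odd.neg_one_zpow (by rw [Int.odd_iff]; omega)
  refine ⟨hpar, ?_, ?_, ?_, ?_⟩
  · intro h
    have hy1 := hy.odd (by omega)
    have key : d % 4 = 0 ∧ (LU b (p / 4) : ZMod p) = (-1) ^ (ρ + d / 4) * (2 * (y : ZMod p) / x) ∧
        (LV b (p / 4) : ZMod p) = 0 := by
      rcases (by omega : b = 4 * ρ + 1 ∨ b = 4 * ρ + 3) with hb4 | hb4
      · obtain ⟨q1, q2, q3⟩ := caseE1 h1 h2 hc hd hx h hy1 rfl hb4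
        exact ⟨q1, O01 hp4 h1 h2 rfl hx.ne hy.ne q2 q3 rfl⟩
      · obtain ⟨q1, q2, q3⟩ := caseE2 h1 h2 hc hd hx h hy1 rfl hb4
        exact ⟨q1, O01 hp4 h1 h2 rfl hx.ne hy.ne q2 q3 rfl⟩
    obtain ⟨k1, k2, k3⟩ := key
    refine ⟨by omega, fun h8 => ?_, fun h8 => ?_, k3⟩
    · rw [k2, zpow_add₀ hm1, s1 h8, one_mul]
    · rw [k2, zpow_add₀ hm1, s2 h8]; ring
  · intro h
    have hx1 := hx.odd (by omega)
    obtain ⟨q1, q2⟩ := caseC4 h1 h2 hc hd hx1 h hy rfl hb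
    obtain ⟨u1, u2⟩ := O10 hp4 h1 h2 rfl hx.ne hy.ne q1 q2 rfl
    refine ⟨?_, u2⟩
    rw [u1, zpow_one]
    ring
  · intro h
    have hx1 := hx.odd (by omega)
    obtain ⟨q1, q2, -, q3⟩ := caseA (κ := 4) h1 h2 hc hx1 (by omega) hy (Or.inr rfl) rfl (fun _ => hb)
    obtain ⟨u1, u2⟩ := O00 hp4 h1 h2 rfl hx.ne hy.ne q2 (q3 rfl) rfl
    refine ⟨by omega, ?_, u1⟩
    have e : (d + y) / 4 = d / 4 + y / 4 := by omega
    rw [u2, e]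
  · intro h
    have hy1 := hy.odd (by omega)
    have key : (LU b (p / 4) : ZMod p) = 0 ∧
        (LV b (p / 4) : ZMod p) = 2 * (-1) ^ (ρ + 1 + x / 4) * ((d : ZMod p) / c) := by
      rcases (by omega : b = 4 * ρ + 1 ∨ b = 4 * ρ + 3) with hb4 | hb4
      · obtain ⟨q1, q2⟩ := caseE3 h1 h2 hc hd hx (by omega) hy1 rfl hb4
        exact O11 hp4 h1 h2 rfl hx.ne hy.ne q1 q2 rfl
      · obtain ⟨q1, q2⟩ := caseE4 h1 h2 hc hd hx (by omega) hy1 rfl hb4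
        exact O11 hp4 h1 h2 rfl hx.ne hy.ne q1 q2 rfl
    obtain ⟨k1, k2⟩ := key
    refine ⟨fun h8 => ?_, fun h8 => ?_, k1⟩
    · rw [k2, zpow_add₀ hm1, zpow_add₀ hm1, s1 h8, zpow_one]; ring
    · rw [k2, zpow_add₀ hm1, zpow_add₀ hm1, s2 h8, zpow_one]; ring

end Pool.Agent.Results.MP_551acd_nt.LucasQuarter
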